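import Mathlib

/-!
# The sub-leading pole coefficient for height functions on grids with two rows

For `m = 2` and `d = 6` the coefficient `c_2(2)` is `0`, not `-4 (6 - 4) = -8`.
-/

namespace Pool.Agent.Results.MP_562107_co.TwoRowPole

/-- The vertices of the grid graph `G_{m,n}` (with rows and columns numbered from `0`). -/
abbrev Cell (m n : ℕ) := Fin m × Fin n

/-- Two cells are adjacent when they differ by `1` in exactly one coordinate. -/
def Adj {m n : ℕ} (u v : Cell m n) : Prop :=
  (u.1 = v.1 ∧ ((u.2 : ℕ) + 1 = v.2 ∨ (v.2 : ℕ) + 1 = u.2)) ∨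
  (u.2 = v.2 ∧ ((u.1 : ℕ) + 1 = v.1 ∨ (v.1 : ℕ) + 1 = u.1))

/-- Height functions: the values on the two ends of every edge differ by exactly `1`, and the
value at the corner cell is `0`. -/
def IsHeight {m n : ℕ} (h : Cell m n → ℤ) : Prop :=
  (∀ u v, Adj u v → |h u - h v| = 1) ∧ ∀ u : Cell m n, (u.1 : ℕ) = 0 → (u.2 : ℕ) = 0 → h u = 0

/-- `v` is a strict local minimum of `h`. -/
def IsMin {m n : ℕ} (h : Cell m n → ℤ) (v : Cell m n) : Prop := ∀ u, Adj u v → h u = h v + 1

/-- `v` is a strict local maximum of `h`. -/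
def IsMax {m n : ℕ} (h : Cell m n → ℤ) (v : Cell m n) : Prop := ∀ u, Adj u v → h u = h v - 1

/-- The number of extrema of `h`. -/
noncomputable def extrema {m n : ℕ} (h : Cell m n → ℤ) : ℕ :=
  Nat.card {v : Cell m n // IsMin h v ∨ IsMax h v}

/-- `E_d(m,n)`: the number of height functions on `G_{m,n}` with exactly `d` extrema. -/
noncomputable def E (d m n : ℕ) : ℕ :=
  Nat.card {h : Cell m n → ℤ // IsHeight h ∧ extrema h = d}

/-- The series `F_{d,m}(z) = ∑_{n ≥ 2} E_d(m,n) z^n`. -/
noncomputable def genF (d m : ℕ) : PowerSeries ℚ :=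
  PowerSeries.mk fun n => if 2 ≤ n then (E d m n : ℚ) else 0

/-- `(1 - z)^{-1}` as a power series. -/
noncomputable def invOneSub : PowerSeries ℚ := PowerSeries.mk fun _ => 1

/-- `c` is the sequence of coefficients of the expansion of `F_{d,m}` at its only pole `z = 1`:
`F_{d,m}(z) = ∑_{i=1}^{d-1} c_i / (1 - z)^{d - i} + (a polynomial in z)`. -/
def IsPolarExpansion (d m : ℕ) (c : ℕ → ℚ) : Prop :=
  ∃ P : Polynomial ℚ, genF d m =
    ∑ i ∈ Finset.Icc 1 (d - 1), PowerSeries.C (c i) * invOneSub ^ (d - i) + (P : PowerSeries ℚ)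

/-! ### Words -/

/-- The three possible steps between two consecutive columns. -/
inductive Letter | U | D | F
deriving DecidableEq, Fintype

open Letter

/-- Number of extrema in a column with given left and right steps. -/
def e : Letter → Letter → ℕ
  | U, U => 0
  | D, D => 0
  | F, F => 2
  | _, _ => 1

/-- Extension of a word by the letter `F` on both sides. -/
def ext {N : ℕ} (w : Fin N → Letter) (i : ℕ) : Letter :=
  if h : 1 ≤ i ∧ i ≤ N then w ⟨i - 1, by omega⟩ else F

/-- The step between the columns `(a, b)` and `(a', b')`. -/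
def ltr (a b a' b' : ℤ) : Letter :=
  if a' - a = b' - b then (if a' = a + 1 then U else D) else F

/-- The path of a word. -/
def path (v : Bool) (w : ℕ → Letter) : ℕ → ℤ × ℤ
  | 0 => (0, if v then 1 else -1)
  | i + 1 => match w i with
    | U => ((path v w i).1 + 1, (path v w i).2 + 1)
    | D => ((path v w i).1 - 1, (path v w i).2 - 1)
    | F => ((path v w i).2, (path v w i).1)

theorem path_diff (v : Bool) (w : ℕ → Letter) (i : ℕ) :
    (path v w i).2 - (path v w i).1 = 1 ∨ (path v w i).2 - (path v w i).1 = -1 := by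
  induction i with
  | zero => cases v <;> simp [path]
  | succ i ih =>
    simp only [path]
    cases w i <;> simp only <;> omega

theorem path_ltr (v : Bool) (w : ℕ → Letter) (i : ℕ) :
    ltr (path v w i).1 (path v w i).2 (path v w (i + 1)).1 (path v w (i + 1)).2 = w i := by
  have h := path_diff v w i
  simp only [path]
  unfold ltr
  cases w i <;> simp only
  · simp
  · rw [if_pos (by omega), if_neg (by omega)]
  · rw [if_neg (by omega)]

theorem path_step1 (v : Bool) (w : ℕ → Letter) (i : ℕ) :
    |(path v w i).1 - (path v w (i + 1)).1| = 1 ∧ |(path v w i).2 - (path v w (i + 1)).2| = 1 := by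
  have h := path_diff v w i
  simp only [path]
  cases w i <;> simp only <;> constructor <;> rw [abs_eq (by norm_num)] <;> omega

/-- A total version of a column of a height function on two rows. -/
def row {N : ℕ} (h : Cell 2 (N + 1) → ℤ) (r : Fin 2) (i : ℕ) : ℤ :=
  h (r, ⟨min i N, by omega⟩)

theorem row_eq {N : ℕ} (h : Cell 2 (N + 1) → ℤ) (r : Fin 2) (i : Fin (N + 1)) :
    h (r, i) = row h r i := by
  unfold row
  congr 2
  ext
  simp
  omega

/-- The word of a height function. -/
def word {N : ℕ} (h : Cell 2 (N + 1) → ℤ) (i : Fin N) : Letter :=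
  ltr (row h 0 i) (row h 1 i) (row h 0 (i + 1)) (row h 1 (i + 1))

theorem isHeight_iff {N : ℕ} (h : Cell 2 (N + 1) → ℤ) :
    IsHeight h ↔ row h 0 0 = 0 ∧
      (∀ i, i ≤ N → (row h 1 i - row h 0 i = 1 ∨ row h 1 i - row h 0 i = -1)) ∧
      (∀ i, i < N → (row h 0 (i + 1) - row h 0 i = 1 ∨ row h 0 (i + 1) - row h 0 i = -1)) ∧
      (∀ i, i < N → (row h 1 (i + 1) - row h 1 i = 1 ∨ row h 1 (i + 1) - row h 1 i = -1)) := by
  constructor
  · rintro ⟨h1, h2⟩
    refine ⟨?_, ?_, ?_, ?_⟩
    · exact h2 _ rfl (by simp)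
    · intro i hi
      have := h1 (1, ⟨i, by omega⟩) (0, ⟨i, by omega⟩) (Or.inr ⟨rfl, by simp⟩)
      rw [row_eq h, row_eq h, abs_eq (by norm_num)] at this
      exact this
    · intro i hi
      have := h1 (0, ⟨i + 1, by omega⟩) (0, ⟨i, by omega⟩) (Or.inl ⟨rfl, by simp⟩)
      rw [row_eq h, row_eq h, abs_eq (by norm_num)] at this
      exact this
    · intro i hi
      have := h1 (1, ⟨i + 1, by omega⟩) (1, ⟨i, by omega⟩) (Or.inl ⟨rfl, by simp⟩)
      rw [row_eq h, row_eq h, abs_eq (by norm_num)] at this
      exact this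
  · rintro ⟨h0, h1, h2, h3⟩
    refine ⟨?_, ?_⟩
    · rintro ⟨r, i⟩ ⟨s, j⟩ hadj
      rw [row_eq h, row_eq h, abs_eq (by norm_num)]
      rcases hadj with ⟨hrs, hij⟩ | ⟨hij, hrs⟩
      · simp only at hrs hij
        subst hrs
        have key : ∀ k : ℕ, k < N → (row h r (k + 1) - row h r k = 1 ∨
            row h r (k + 1) - row h r k = -1) := by
          intro k hk
          fin_cases r
          · exact h2 k hk
          · exact h3 k hk
        rcases hij with hij | hij
        · have := key i (by omega)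
          rw [hij] at this
          omega
        · have := key j (by omega)
          rw [hij] at this
          omega
      · simp only at hrs hij
        subst hij
        have := h1 i (by omega)
        fin_cases r <;> fin_cases s <;> simp at hrs ⊢ <;> omega
    · rintro ⟨r, i⟩ hr hi
      rw [row_eq h]
      simp only at hr hi
      have : r = 0 := Fin.ext hr
      rw [this, hi, h0]

theorem isMin_iff {N : ℕ} (h : Cell 2 (N + 1) → ℤ) (r : Fin 2) (i : Fin (N + 1)) :
    IsMin h (r, i) ↔ row h (1 - r) i = row h r i + 1 ∧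
      (1 ≤ (i : ℕ) → row h r (i - 1) = row h r i + 1) ∧
      ((i : ℕ) < N → row h r (i + 1) = row h r i + 1) := by
  constructor
  · intro H
    refine ⟨?_, ?_, ?_⟩
    · have := H (1 - r, i) (Or.inr ⟨rfl, by fin_cases r <;> simp⟩)
      rw [row_eq h, row_eq h] at this
      exact this
    · intro hi
      have := H (r, ⟨i - 1, by omega⟩) (Or.inl ⟨rfl, by simp; omega⟩)
      rw [row_eq h, row_eq h] at this
      exact this
    · intro hi
      have := H (r, ⟨i + 1, by omega⟩) (Or.inl ⟨rfl, by simp⟩)
      rw [row_eq h, row_eq h] at this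
      exact this
  · rintro ⟨h1, h2, h3⟩ ⟨s, j⟩ hadj
    rw [row_eq h, row_eq h]
    rcases hadj with ⟨hrs, hij⟩ | ⟨hij, hrs⟩
    · simp only at hrs hij
      subst hrs
      rcases hij with hij | hij
      · have := h2 (by omega)
        rw [show (j : ℕ) = (i : ℕ) - 1 by omega]
        exact this
      · have := h3 (by omega)
        rw [← hij]
        exact this
    · simp only at hrs hij
      subst hij
      have : s = 1 - r := by
        fin_cases r <;> fin_cases s <;> simp at hrs ⊢
      rw [this]
      exact h1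

theorem isMax_iff {N : ℕ} (h : Cell 2 (N + 1) → ℤ) (r : Fin 2) (i : Fin (N + 1)) :
    IsMax h (r, i) ↔ row h (1 - r) i = row h r i - 1 ∧
      (1 ≤ (i : ℕ) → row h r (i - 1) = row h r i - 1) ∧
      ((i : ℕ) < N → row h r (i + 1) = row h r i - 1) := by
  constructor
  · intro H
    refine ⟨?_, ?_, ?_⟩
    · have := H (1 - r, i) (Or.inr ⟨rfl, by fin_cases r <;> simp⟩)
      rw [row_eq h, row_eq h] at this
      exact this
    · intro hi
      have := H (r, ⟨i - 1, by omega⟩) (Or.inl ⟨rfl, by simp; omega⟩)
      rw [row_eq h, row_eq h] at this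
      exact this
    · intro hi
      have := H (r, ⟨i + 1, by omega⟩) (Or.inl ⟨rfl, by simp⟩)
      rw [row_eq h, row_eq h] at this
      exact this
  · rintro ⟨h1, h2, h3⟩ ⟨s, j⟩ hadj
    rw [row_eq h, row_eq h]
    rcases hadj with ⟨hrs, hij⟩ | ⟨hij, hrs⟩
    · simp only at hrs hij
      subst hrs
      rcases hij with hij | hij
      · have := h2 (by omega)
        rw [show (j : ℕ) = (i : ℕ) - 1 by omega]
        exact this
      · have := h3 (by omega)
        rw [← hij]
        exact this
    · simp only at hrs hij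
      subst hij
      have : s = 1 - r := by
        fin_cases r <;> fin_cases s <;> simp at hrs ⊢
      rw [this]
      exact h1

open scoped Classical in
/-- The number of extrema in a column. -/
theorem column_count {N : ℕ} (h : Cell 2 (N + 1) → ℤ) (hh : IsHeight h) (i : Fin (N + 1)) :
    (∑ r : Fin 2, if IsMin h (r, i) ∨ IsMax h (r, i) then 1 else 0) =
      e (ext (word h) i) (ext (word h) (i + 1)) := by
  rw [isHeight_iff] at hh
  obtain ⟨h0, h1, h2, h3⟩ := hh
  obtain ⟨i, hi⟩ := i
  rw [Fin.sum_univ_two, isMin_iff, isMax_iff, isMin_iff, isMax_iff]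
  simp only [sub_zero, sub_self]
  have hl : ext (word h) i = if 1 ≤ i then
      ltr (row h 0 (i - 1)) (row h 1 (i - 1)) (row h 0 i) (row h 1 i) else F := by
    unfold ext word
    by_cases hi1 : 1 ≤ i
    · rw [dif_pos ⟨hi1, by omega⟩, if_pos hi1]
      simp only [show i - 1 + 1 = i by omega]
    · rw [dif_neg (by omega), if_neg hi1]
  have hr : ext (word h) (i + 1) = if i < N then
      ltr (row h 0 i) (row h 1 i) (row h 0 (i + 1)) (row h 1 (i + 1)) else F := by
    unfold ext word
    by_cases hi1 : i < N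
    · rw [dif_pos ⟨by omega, by omega⟩, if_pos hi1]
      simp only [show i + 1 - 1 = i by omega]
    · rw [dif_neg (by omega), if_neg hi1]
  rw [hl, hr]
  have a1 := h1 i (by omega)
  have a2 := h2 i
  have a3 := h3 i
  have a4 := h1 (i - 1) (by omega)
  have a5 := h2 (i - 1)
  have a6 := h3 (i - 1)
  have a7 := h1 (i + 1)
  by_cases hi1 : 1 ≤ i
  · rw [show i - 1 + 1 = i by omega] at a5 a6
    generalize row h 0 i = a at *
    generalize row h 1 i = b at *
    generalize row h 0 (i + 1) = a' at *
    generalize row h 1 (i + 1) = b' at *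
    generalize row h 0 (i - 1) = p at *
    generalize row h 1 (i - 1) = q at *
    have a5' := a5 (by omega)
    have a6' := a6 (by omega)
    clear a5 a6 hl hr h0 h1 h2 h3
    by_cases hi2 : i < N
    · have a2' := a2 hi2
      have a3' := a3 hi2
      have a7' := a7 (by omega)
      clear a2 a3 a7
      simp only [hi1, hi2, true_implies, if_true]
      unfold ltr
      rcases a1 with a1 | a1 <;> rcases a2' with a2' | a2' <;> rcases a3' with a3' | a3' <;>
      rcases a5' with a5' | a5' <;> rcases a6' with a6' | a6' <;>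
      first
        | (exfalso; omega)
        | (split_ifs <;> first | rfl | (exfalso; omega))
    · clear a2 a3 a7
      simp only [hi1, hi2, true_implies, false_implies, if_true, if_false, and_true]
      unfold ltr
      rcases a1 with a1 | a1 <;>
      rcases a5' with a5' | a5' <;> rcases a6' with a6' | a6' <;>
      first
        | (exfalso; omega)
        | (split_ifs <;> first | rfl | (exfalso; omega))
  · clear a4 a5 a6
    generalize row h 0 i = a at *
    generalize row h 1 i = b at *
    generalize row h 0 (i + 1) = a' at *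
    generalize row h 1 (i + 1) = b' at *
    by_cases hi2 : i < N
    · have a2' := a2 hi2
      have a3' := a3 hi2
      have a7' := a7 (by omega)
      clear a2 a3 a7 hl hr h0 h1 h2 h3
      simp only [hi1, hi2, true_implies, false_implies, if_true, if_false, true_and]
      unfold ltr
      rcases a1 with a1 | a1 <;> rcases a2' with a2' | a2' <;> rcases a3' with a3' | a3' <;>
      first
        | (exfalso; omega)
        | (split_ifs <;> first | rfl | (exfalso; omega))
    · clear a2 a3 a7 hl hr h0 h1 h2 h3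
      simp only [hi1, hi2, false_implies, if_false, and_true]
      rcases a1 with a1 | a1 <;>
        (split_ifs <;> first | rfl | (exfalso; omega))

open scoped Classical in
theorem extrema_eq {N : ℕ} (h : Cell 2 (N + 1) → ℤ) (hh : IsHeight h) :
    extrema h = ∑ i ∈ Finset.range (N + 1), e (ext (word h) i) (ext (word h) (i + 1)) := by
  unfold extrema
  rw [Nat.card_eq_fintype_card, Fintype.card_subtype, Finset.card_filter, Fintype.sum_prod_type,
    Finset.sum_comm, Finset.sum_range]
  exact Finset.sum_congr rfl fun i _ => column_count h hh i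

/-- The cost of a word, given the preceding letter. -/
def cost : (N : ℕ) → Letter → (Fin N → Letter) → ℕ
  | 0, l, _ => e l F
  | N + 1, l, w => e l (w 0) + cost N (w 0) (Fin.tail w)

theorem sum_eq_cost (N : ℕ) (L : ℕ → Letter) (w : Fin N → Letter)
    (h1 : ∀ i : Fin N, L (i + 1) = w i) (h2 : L (N + 1) = F) :
    ∑ i ∈ Finset.range (N + 1), e (L i) (L (i + 1)) = cost N (L 0) w := by
  induction N generalizing L with
  | zero => simp [cost, h2]
  | succ N ih =>
    rw [Finset.sum_range_succ', add_comm]
    have := ih (fun i => L (i + 1)) (Fin.tail w) (fun i => by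
      have := h1 i.succ
      simpa [Fin.tail] using this) h2
    rw [this]
    have h3 := h1 0
    simp only [Fin.val_zero, zero_add] at h3
    simp [cost, h3]

theorem extrema_eq_cost {N : ℕ} (h : Cell 2 (N + 1) → ℤ) (hh : IsHeight h) :
    extrema h = cost N F (word h) := by
  rw [extrema_eq h hh, sum_eq_cost N (ext (word h)) (word h)]
  · simp [ext]
  · intro i
    unfold ext
    rw [dif_pos ⟨by omega, by omega⟩]
    simp
  · simp [ext]

/-- Number of words with given cost. -/
def cnt (N : ℕ) (l : Letter) (s : ℕ) : ℕ :=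
  Fintype.card {w : Fin N → Letter // cost N l w = s}

/-- The height function of a word. -/
def ht {N : ℕ} (v : Bool) (w : Fin N → Letter) : Cell 2 (N + 1) → ℤ := fun c =>
  if c.1 = 0 then (path v (fun i => if hi : i < N then w ⟨i, hi⟩ else U) c.2).1
  else (path v (fun i => if hi : i < N then w ⟨i, hi⟩ else U) c.2).2

theorem row_ht {N : ℕ} (v : Bool) (w : Fin N → Letter) (r : Fin 2) (i : ℕ) (hi : i ≤ N) :
    row (ht v w) r i =
      if r = 0 then (path v (fun i => if hi : i < N then w ⟨i, hi⟩ else U) i).1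
      else (path v (fun i => if hi : i < N then w ⟨i, hi⟩ else U) i).2 := by
  unfold row ht
  simp only [min_eq_left hi]

theorem isHeight_ht {N : ℕ} (v : Bool) (w : Fin N → Letter) : IsHeight (ht v w) := by
  rw [isHeight_iff]
  refine ⟨?_, ?_, ?_, ?_⟩
  · rw [row_ht v w 0 0 (by omega)]
    simp [path]
  · intro i hi
    rw [row_ht v w 0 i hi, row_ht v w 1 i hi]
    simpa using path_diff v _ i
  · intro i hi
    rw [row_ht v w 0 i (by omega), row_ht v w 0 (i + 1) (by omega)]
    have := (path_step1 v (fun i => if hi : i < N then w ⟨i, hi⟩ else U) i).1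
    rw [abs_eq (by norm_num)] at this
    simp only [if_true]
    omega
  · intro i hi
    rw [row_ht v w 1 i (by omega), row_ht v w 1 (i + 1) (by omega)]
    have := (path_step1 v (fun i => if hi : i < N then w ⟨i, hi⟩ else U) i).2
    rw [abs_eq (by norm_num)] at this
    simp only [one_ne_zero, if_false]
    omega

theorem word_ht {N : ℕ} (v : Bool) (w : Fin N → Letter) : word (ht v w) = w := by
  funext i
  unfold word
  rw [row_ht v w 0 i (by omega), row_ht v w 1 i (by omega), row_ht v w 0 (i + 1) (by omega),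
    row_ht v w 1 (i + 1) (by omega)]
  simp only [if_true, one_ne_zero, if_false]
  rw [path_ltr]
  simp

theorem height_ext {N : ℕ} (h h' : Cell 2 (N + 1) → ℤ) (hh : IsHeight h) (hh' : IsHeight h')
    (h1 : row h 1 0 = row h' 1 0) (h2 : word h = word h') : h = h' := by
  have key : ∀ i, i ≤ N → row h 0 i = row h' 0 i ∧ row h 1 i = row h' 1 i := by
    rw [isHeight_iff] at hh hh'
    obtain ⟨a0, a1, a2, a3⟩ := hh
    obtain ⟨b0, b1, b2, b3⟩ := hh'
    intro i
    induction i with
    | zero => intro _; exact ⟨by rw [a0, b0], h1⟩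
    | succ i ih =>
      intro hi
      obtain ⟨e1, e2⟩ := ih (by omega)
      have e3 := congrFun h2 ⟨i, by omega⟩
      unfold word ltr at e3
      simp only at e3
      have c1 := a1 i (by omega)
      have c1' := a1 (i + 1) (by omega)
      have c2 := a2 i (by omega)
      have c3 := a3 i (by omega)
      have d1 := b1 i (by omega)
      have d1' := b1 (i + 1) (by omega)
      have d2 := b2 i (by omega)
      have d3 := b3 i (by omega)
      split_ifs at e3 <;> constructor <;> omega
  funext ⟨r, i⟩
  rw [row_eq h, row_eq h']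
  have := key i (by omega)
  fin_cases r
  · exact this.1
  · exact this.2

theorem E_two (d N : ℕ) : E d 2 (N + 1) = 2 * cnt N F d := by
  unfold E cnt
  have : Function.Bijective (fun p : Bool × {w : Fin N → Letter // cost N F w = d} =>
      (⟨ht p.1 p.2.1, isHeight_ht _ _, by
        rw [extrema_eq_cost _ (isHeight_ht _ _), word_ht]; exact p.2.2⟩ :
        {h : Cell 2 (N + 1) → ℤ // IsHeight h ∧ extrema h = d})) := by
    constructor
    · rintro ⟨v, w, hw⟩ ⟨v', w', hw'⟩ heq
      simp only [Subtype.mk.injEq] at heq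
      have e1 : w = w' := by rw [← word_ht v w, heq, word_ht]
      have e2 : row (ht v w) 1 0 = row (ht v' w') 1 0 := by rw [heq]
      rw [row_ht _ _ _ _ (by omega), row_ht _ _ _ _ (by omega)] at e2
      simp only [path, one_ne_zero, if_false] at e2
      have e3 : v = v' := by
        cases v <;> cases v' <;> simp at e2 ⊢
      simp [e1, e3]
    · rintro ⟨h, hh, hd⟩
      refine ⟨(decide (row h 1 0 = 1), ⟨word h, by rw [← extrema_eq_cost h hh]; exact hd⟩), ?_⟩
      simp only [Subtype.mk.injEq]
      apply height_ext _ _ (isHeight_ht _ _) hh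
      · rw [row_ht _ _ _ _ (by omega)]
        rw [isHeight_iff] at hh
        have := hh.2.1 0 (by omega)
        rw [hh.1] at this
        simp only [path, one_ne_zero, if_false, decide_eq_true_eq]
        split_ifs <;> omega
      · rw [word_ht]
  rw [← Nat.card_congr (Equiv.ofBijective _ this), Nat.card_prod, Nat.card_eq_fintype_card,
    Fintype.card_bool, Nat.card_eq_fintype_card]

theorem cnt_zero (l : Letter) (s : ℕ) : cnt 0 l s = if e l F = s then 1 else 0 := by
  unfold cnt
  simp only [cost]
  split_ifs with h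
  · simp [h]
  · simp [h]

theorem cnt_succ (N : ℕ) (l : Letter) (s : ℕ) :
    cnt (N + 1) l s = ∑ x : Letter, if e l x ≤ s then cnt N x (s - e l x) else 0 := by
  unfold cnt
  rw [Fintype.card_subtype, Finset.card_filter,
    ← (Fin.consEquiv (fun _ : Fin (N + 1) => Letter)).sum_comp, Fintype.sum_prod_type]
  apply Finset.sum_congr rfl
  intro x _
  simp only [Fin.consEquiv, Equiv.coe_fn_mk, cost, Fin.cons_zero, Fin.tail_cons]
  split_ifs with h
  · rw [Fintype.card_subtype, Finset.card_filter]
    apply Finset.sum_congr rfl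
    intro w _
    congr 1
    rw [eq_iff_iff]
    omega
  · apply Finset.sum_eq_zero
    intro w _
    rw [if_neg (by omega)]

theorem letter_univ : (Finset.univ : Finset Letter) = {U, D, F} := rfl

theorem sum_letter {M : Type*} [AddCommMonoid M] (f : Letter → M) :
    ∑ x : Letter, f x = f U + (f D + f F) := by
  rw [letter_univ, Finset.sum_insert (by decide), Finset.sum_insert (by decide),
    Finset.sum_singleton]

theorem cnt_UD (N : ℕ) (s : ℕ) : cnt N D s = cnt N U s := by
  induction N generalizing s with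
  | zero => rw [cnt_zero, cnt_zero]; rfl
  | succ N ih =>
    rw [cnt_succ, cnt_succ, sum_letter, sum_letter]
    simp only [e, ih]
    omega

/-- The generating functions of the word counts. -/
noncomputable def G (l : Letter) (s : ℕ) : PowerSeries ℚ := PowerSeries.mk fun N => (cnt N l s : ℚ)

open PowerSeries

theorem G_eq (l : Letter) (s : ℕ) :
    G l s = C (if e l F = s then 1 else 0) +
      X * ∑ x : Letter, if e l x ≤ s then G x (s - e l x) else 0 := by
  ext N
  cases N with
  | zero =>
    simp only [G, coeff_mk, map_add, coeff_zero_X_mul, add_zero, cnt_zero, coeff_zero_C]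
    split_ifs <;> simp
  | succ N =>
    simp only [map_add, coeff_succ_X_mul, map_sum]
    simp only [G, coeff_mk, cnt_succ]
    rw [coeff_C, if_neg (by omega), zero_add, Nat.cast_sum]
    apply Finset.sum_congr rfl
    intro x _
    split_ifs <;> simp

theorem G_D (s : ℕ) : G D s = G U s := by
  ext N
  simp [G, cnt_UD]

theorem u_mul : (1 - X) * invOneSub = 1 := by
  ext n
  cases n with
  | zero => simp [sub_mul, invOneSub]
  | succ n => simp [sub_mul, invOneSub, coeff_succ_X_mul, coeff_one]

theorem G_U_zero : G U 0 = 0 := by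
  have h := G_eq U 0
  rw [sum_letter] at h
  simp [e] at h
  have h2 : G U 0 * (1 - X) = 0 := by rw [mul_sub, mul_one, mul_comm _ X, ← h, sub_self]
  calc G U 0 = G U 0 * ((1 - X) * invOneSub) := by rw [u_mul, mul_one]
    _ = (G U 0 * (1 - X)) * invOneSub := by ring
    _ = 0 := by rw [h2, zero_mul]

theorem G_F_zero : G F 0 = 0 := by
  rw [G_eq F 0, sum_letter]
  simp [e]

theorem G_F_one : G F 1 = 0 := by
  rw [G_eq F 1, sum_letter]
  simp [e, G_D, G_U_zero]

theorem G_U_succ (s : ℕ) : G U (s + 1) = invOneSub * (C (if s = 0 then 1 else 0) +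
    X * (G F s + G U s)) := by
  have h := G_eq U (s + 1)
  have e1 : (if e U F = s + 1 then (1 : ℚ) else 0) = if s = 0 then 1 else 0 := by
    congr 1
    rw [eq_iff_iff]
    simp only [e]
    omega
  rw [e1, sum_letter] at h
  simp only [e, zero_le, if_true, Nat.sub_zero, Nat.le_add_left, Nat.add_sub_cancel, G_D] at h
  calc G U (s + 1) = invOneSub * (G U (s + 1) - X * G U (s + 1)) := by
        have := u_mul
        linear_combination (-G U (s + 1)) * this
    _ = _ := by
      congr 1
      linear_combination h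

theorem G_F_succ (s : ℕ) : G F (s + 2) = C (if s = 0 then 1 else 0) +
    X * (2 * G U (s + 1) + G F s) := by
  have h := G_eq F (s + 2)
  have e1 : (if e F F = s + 2 then (1 : ℚ) else 0) = if s = 0 then 1 else 0 := by
    congr 1
    rw [eq_iff_iff]
    simp only [e]
    omega
  rw [e1, sum_letter] at h
  simp only [e, if_true, Nat.le_add_left, Nat.add_sub_cancel, G_D] at h
  simp only [show s + 2 - 1 = s + 1 by omega] at h
  linear_combination h

theorem genF_eq : genF 6 2 = 4 * invOneSub ^ 5 - 60 * invOneSub ^ 3 + 168 * invOneSub ^ 2 -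
    208 * invOneSub + (96 + 32 * X + 4 * X ^ 2 - 2 * X ^ 3) := by
  have h0 : genF 6 2 = 2 * X * G F 6 := by
    ext n
    unfold genF G
    rw [coeff_mk, mul_assoc, mul_comm 2, mul_assoc]
    cases n with
    | zero => simp
    | succ n =>
      rw [coeff_succ_X_mul, E_two]
      have : (2 : PowerSeries ℚ) = C (2 : ℚ) := (map_ofNat C 2).symm
      rw [this, coeff_mul_C, coeff_mk]
      cases n with
      | zero => simp [cnt_zero, e]
      | succ n =>
        rw [if_pos (by omega)]
        push_cast
        ring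
  rw [h0]
  have hX : X * invOneSub = invOneSub - 1 := by
    have := u_mul
    linear_combination (-1 : PowerSeries ℚ) * this
  have a1 : G U 1 = invOneSub := by
    rw [G_U_succ 0, G_F_zero, G_U_zero]; simp
  have a2 : G F 2 = 2 * invOneSub - 1 := by
    rw [G_F_succ 0, G_F_zero, a1]
    simp
    linear_combination 2 * hX
  have b2 : G U 2 = invOneSub ^ 2 - invOneSub := by
    rw [G_U_succ 1, G_F_one, a1]
    simp
    linear_combination invOneSub * hX
  have b3 : G U 3 = invOneSub ^ 3 - 2 * invOneSub + 1 := by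
    rw [G_U_succ 2, a2, b2]
    simp
    linear_combination (invOneSub ^ 2 + invOneSub - 1) * hX
  have a3 : G F 3 = 2 * invOneSub ^ 2 - 4 * invOneSub + 2 := by
    rw [G_F_succ 1, b2, G_F_one]
    simp
    linear_combination (2 * invOneSub - 2) * hX
  have a4 : G F 4 = 2 * invOneSub ^ 3 - 2 * invOneSub ^ 2 - 2 * invOneSub + 2 + X := by
    rw [G_F_succ 2, b3, a2]
    simp
    linear_combination (2 * invOneSub ^ 2 - 2) * hX
  have b4 : G U 4 = invOneSub ^ 4 + invOneSub ^ 3 - 8 * invOneSub ^ 2 + 9 * invOneSub - 3 := by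
    rw [G_U_succ 3, a3, b3]
    simp
    linear_combination (2 * invOneSub ^ 2 - 4 * invOneSub + 2 + invOneSub ^ 3 - 2 * invOneSub + 1) * hX
  have b5 : G U 5 = invOneSub ^ 5 + 2 * invOneSub ^ 4 - 13 * invOneSub ^ 3 + 17 * invOneSub ^ 2
      - 7 * invOneSub - X := by
    rw [G_U_succ 4, a4, b4]
    simp
    linear_combination (invOneSub ^ 4 + 3 * invOneSub ^ 3 - 10 * invOneSub ^ 2 + 7 * invOneSub - 1
      + X) * hX + hX
  have a6 : G F 6 = 2 * invOneSub ^ 5 + 2 * invOneSub ^ 4 - 28 * invOneSub ^ 3 +
      56 * invOneSub ^ 2 - 48 * invOneSub + 16 + 2 * X - X ^ 2 := by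
    rw [G_F_succ 4, b5, a4]
    simp
    linear_combination (2 * invOneSub ^ 4 + 4 * invOneSub ^ 3 - 24 * invOneSub ^ 2 +
      32 * invOneSub - 16) * hX
  rw [a6]
  linear_combination (4 * invOneSub ^ 4 + 4 * invOneSub ^ 3 - 56 * invOneSub ^ 2 +
      112 * invOneSub - 96) * hX

theorem genF_eq_sum : genF 6 2 =
    ∑ i ∈ Finset.Icc 1 (6 - 1), C ((fun i : ℕ => if i = 1 then (4 : ℚ) else if i = 3 then -60
      else if i = 4 then 168 else if i = 5 then -208 else 0) i) * invOneSub ^ (6 - i) +
    ((Polynomial.C 96 + Polynomial.C 32 * Polynomial.X + Polynomial.C 4 * Polynomial.X ^ 2 -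
      Polynomial.C 2 * Polynomial.X ^ 3 : Polynomial ℚ) : PowerSeries ℚ) := by
  rw [genF_eq]
  rw [show Finset.Icc 1 (6 - 1) = {1, 2, 3, 4, 5} from rfl]
  have c208 : (C (208 : ℚ) : PowerSeries ℚ) = 208 := map_ofNat C 208
  have c168 : (C (168 : ℚ) : PowerSeries ℚ) = 168 := map_ofNat C 168
  have c60 : (C (60 : ℚ) : PowerSeries ℚ) = 60 := map_ofNat C 60
  have c96 : (C (96 : ℚ) : PowerSeries ℚ) = 96 := map_ofNat C 96
  have c32 : (C (32 : ℚ) : PowerSeries ℚ) = 32 := map_ofNat C 32
  have c4 : (C (4 : ℚ) : PowerSeries ℚ) = 4 := map_ofNat C 4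
  have c2 : (C (2 : ℚ) : PowerSeries ℚ) = 2 := map_ofNat C 2
  simp only [Polynomial.coe_add, Polynomial.coe_mul, Polynomial.coe_pow, Polynomial.coe_sub,
      Polynomial.coe_X, Polynomial.coe_C]
  simp [c208, c168, c60, c96, c32, c4, c2]
  ring

theorem unique_aux (c c' : ℕ → ℚ) (P P' : Polynomial ℚ)
    (h : ∑ i ∈ Finset.Icc 1 (6 - 1), C (c i) * invOneSub ^ (6 - i) + (P : PowerSeries ℚ) =
      ∑ i ∈ Finset.Icc 1 (6 - 1), C (c' i) * invOneSub ^ (6 - i) + (P' : PowerSeries ℚ)) :
    c 2 = c' 2 := by
  rw [show Finset.Icc 1 (6 - 1) = {1, 2, 3, 4, 5} from rfl] at h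
  simp at h
  have key : ∀ (c : ℕ → ℚ) (P : Polynomial ℚ),
      (C (c 1) * invOneSub ^ 5 + (C (c 2) * invOneSub ^ 4 + (C (c 3) * invOneSub ^ 3 +
        (C (c 4) * invOneSub ^ 2 + C (c 5) * invOneSub))) + (P : PowerSeries ℚ)) * (1 - X) ^ 5 =
      ((Polynomial.C (c 1) + Polynomial.C (c 2) * (1 - Polynomial.X) +
        Polynomial.C (c 3) * (1 - Polynomial.X) ^ 2 + Polynomial.C (c 4) * (1 - Polynomial.X) ^ 3 +
        Polynomial.C (c 5) * (1 - Polynomial.X) ^ 4 + P * (1 - Polynomial.X) ^ 5 : Polynomial ℚ) :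
        PowerSeries ℚ) := by
    intro c P
    have hu := u_mul
    simp only [Polynomial.coe_add, Polynomial.coe_mul, Polynomial.coe_pow, Polynomial.coe_sub,
      Polynomial.coe_one, Polynomial.coe_X, Polynomial.coe_C]
    have h1 : ∀ k, invOneSub ^ k * (1 - X) ^ k = 1 := by
      intro k
      rw [← mul_pow, mul_comm, hu, one_pow]
    have e5 := h1 5
    have e4 := h1 4
    have e3 := h1 3
    have e2 := h1 2
    linear_combination (C (c 1)) * e5 + C (c 2) * (1 - X) * e4 + C (c 3) * (1 - X) ^ 2 * e3 +
      C (c 4) * (1 - X) ^ 3 * e2 + C (c 5) * (1 - X) ^ 4 * hu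
  have h2 := key c P
  rw [h, key c' P'] at h2
  have h3 := Polynomial.coe_injective ℚ h2
  have h4 := congrArg (fun Q => Polynomial.eval 1 (Polynomial.derivative Q)) h3
  simp [Polynomial.derivative_pow] at h4
  linarith

/-- **Theorem.** For `m = 2` and `d = 6` the expansion of `F_{6,2}(z)` at `z = 1` exists and has
`c_2(2) = 0`; as `-4 (6 - 4) = -8`, the formula `c_2(m) = -4 (d - 4)` does not hold for all
`d ≥ 5` and `m ≥ 2`. -/
theorem result :
    ((∃ c, IsPolarExpansion 6 2 c) ∧ ∀ c, IsPolarExpansion 6 2 c → c 2 = 0) ∧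
    ¬ ∀ d m : ℕ, 5 ≤ d → 2 ≤ m → ∀ c, IsPolarExpansion d m c → c 2 = -4 * ((d : ℚ) - 4) := by
  have h1 : (∃ c, IsPolarExpansion 6 2 c) := ⟨_, _, genF_eq_sum⟩
  have h2 : ∀ c, IsPolarExpansion 6 2 c → c 2 = 0 := by
    rintro c ⟨P, hP⟩
    have := unique_aux _ _ _ _ (hP.symm.trans genF_eq_sum)
    simpa using this
  refine ⟨⟨h1, h2⟩, fun H => ?_⟩
  obtain ⟨c, hc⟩ := h1
  have h3 := H 6 2 (by norm_num) le_rfl c hc
  rw [h2 c hc] at h3
  norm_num at h3

end Pool.Agent.Results.MP_562107_co.TwoRowPole
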